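import Pool.Agent.H37.UMD.Stmts

/-!
Ultimate matching, module AMG: the arithmetic-geometric step with the noise weight.
-/

set_option autoImplicit false

open MeasureTheory ProbabilityTheory

namespace Pool.UMD

theorem AMG_ge (Λ : ℕ) (Cv ξ : ℝ) (l : ℤ) (hl : |l| ≤ (Λ : ℤ)) :
    l * ξ - Cv * (l : ℝ) ^ 2 ≤ Real.log (ZZ Λ Cv ξ) := by
  have hmem : l ∈ Finset.Icc (-(Λ : ℤ)) Λ := by
    rw [Finset.mem_Icc]
    exact abs_le.mp hl
  have h1 : Real.exp (l * ξ - Cv * (l : ℝ) ^ 2) ≤ ZZ Λ Cv ξ := by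
    unfold ZZ
    exact Finset.single_le_sum (f := fun l : ℤ => Real.exp (l * ξ - Cv * (l : ℝ) ^ 2))
      (fun i _ => (Real.exp_pos _).le) hmem
  have h2 := Real.log_le_log (Real.exp_pos _) h1
  rwa [Real.log_exp] at h2

theorem AMG_abs (Λ : ℕ) (Cv ξ : ℝ) (n : ℕ) (hn : n ≤ Λ) :
    n * |ξ| - Cv * (n : ℝ) ^ 2 ≤ Real.log (ZZ Λ Cv ξ) := by
  have hn' : |(n : ℤ)| ≤ (Λ : ℤ) := by
    rw [abs_of_nonneg (by positivity)]
    exact_mod_cast hn
  rcases le_total 0 ξ with h | h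
  · have := AMG_ge Λ Cv ξ (n : ℤ) hn'
    rw [abs_of_nonneg h]
    simpa using this
  · have := AMG_ge Λ Cv ξ (-(n : ℤ)) (by rw [abs_neg]; exact hn')
    rw [abs_of_nonpos h]
    push_cast at this
    nlinarith [this]

theorem sAmg : SAmg := by
  intro Cv c hCv hc
  refine ⟨3 * Cv * (1 + Cv) + 6 / c, by positivity, ?_⟩
  intro K Λ hK hΛ t h ξ ht hh hth
  have hKpos : 0 < K := by linarith
  have hs : 0 < √K := Real.sqrt_pos.mpr hKpos
  set s := √K with hsdef
  set y := |ξ| with hy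
  have hy0 : 0 ≤ y := abs_nonneg ξ
  set Z := Real.log (ZZ Λ Cv ξ) with hZ
  have hZ0 : 0 ≤ Z := by
    have := AMG_abs Λ Cv ξ 0 (Nat.zero_le _)
    simpa using this
  have hCv0 : 0 < Cv := by linarith
  have hc6 : 0 < 6 / c := by positivity
  rcases le_or_gt (y / (2 * Cv)) Λ with hx | hx
  · -- small case
    set x := y / (2 * Cv) with hxdef
    have hx0 : 0 ≤ x := by positivity
    have hyx : y = 2 * Cv * x := by rw [hxdef]; field_simp
    have hfl : ⌊x⌋₊ ≤ Λ := by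
      have := Nat.floor_mono hx
      simpa using this
    have h1 := AMG_abs Λ Cv ξ ⌊x⌋₊ hfl
    rw [← hy, ← hZ] at h1
    set n : ℝ := (⌊x⌋₊ : ℝ) with hn
    have hn1 : n ≤ x := Nat.floor_le hx0
    have hn2 : x < n + 1 := Nat.lt_floor_add_one x
    have h2 : Cv * x ^ 2 - Cv ≤ Z := by
      have h3 : Cv * x ^ 2 - Cv ≤ n * y - Cv * n ^ 2 := by
        rw [hyx]
        have h4 : (x - n) ^ 2 ≤ 1 := by nlinarith
        nlinarith [mul_le_mul_of_nonneg_left h4 hCv0.le]
      linarith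
    have h5 : y ^ 2 ≤ 4 * Cv * (1 + Cv) * (1 + Z) := by
      rw [hyx]
      have h6 : Cv * x ^ 2 ≤ (1 + Cv) * (1 + Z) := by nlinarith [mul_nonneg hCv0.le hZ0]
      nlinarith [mul_le_mul_of_nonneg_left h6 (by positivity : (0 : ℝ) ≤ 4 * Cv)]
    -- AM-GM
    have h7 : t * y ≤ s * t ^ 2 / (3 * h) + 3 * h / (4 * s) * y ^ 2 := by
      have h8 : s * t ^ 2 / (3 * h) + 3 * h / (4 * s) * y ^ 2 - t * y
          = (2 * s * t - 3 * h * y) ^ 2 / (12 * h * s) := by
        field_simp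
        ring
      have h9 : 0 ≤ (2 * s * t - 3 * h * y) ^ 2 / (12 * h * s) := by positivity
      linarith
    have h10 : 3 * h / (4 * s) * y ^ 2 ≤ (3 * Cv * (1 + Cv) + 6 / c) / s * h * (1 + Z) := by
      calc 3 * h / (4 * s) * y ^ 2 ≤ 3 * h / (4 * s) * (4 * Cv * (1 + Cv) * (1 + Z)) :=
            mul_le_mul_of_nonneg_left h5 (by positivity)
        _ = (3 * Cv * (1 + Cv)) / s * h * (1 + Z) := by field_simp
        _ ≤ (3 * Cv * (1 + Cv) + 6 / c) / s * h * (1 + Z) := by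
            have : 0 ≤ 6 / c / s * h * (1 + Z) := by positivity
            have h11 : (3 * Cv * (1 + Cv) + 6 / c) / s * h * (1 + Z)
                = (3 * Cv * (1 + Cv)) / s * h * (1 + Z) + 6 / c / s * h * (1 + Z) := by ring
            rw [h11]
            linarith
    linarith
  · -- large case
    have hyΛ : 2 * Cv * Λ < y := by
      rw [lt_div_iff₀ (by positivity)] at hx
      linarith
    have hΛ0 : (0 : ℝ) ≤ Λ := Nat.cast_nonneg _
    have h1 := AMG_abs Λ Cv ξ Λ le_rfl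
    rw [← hy, ← hZ] at h1
    have h2 : (Λ : ℝ) * y / 2 ≤ Z := by nlinarith
    have h3 : c * s * y / 2 ≤ Z := by nlinarith
    have h4 : t * y ≤ 3 * h * y := mul_le_mul_of_nonneg_right hth hy0
    have h5 : 3 * h * y ≤ (3 * Cv * (1 + Cv) + 6 / c) / s * h * (1 + Z) := by
      calc 3 * h * y = 6 / c / s * h * (c * s * y / 2) := by field_simp; ring
        _ ≤ 6 / c / s * h * (1 + Z) :=
            mul_le_mul_of_nonneg_left (by linarith) (by positivity)
        _ ≤ (3 * Cv * (1 + Cv) + 6 / c) / s * h * (1 + Z) := by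
            have : 0 ≤ (3 * Cv * (1 + Cv)) / s * h * (1 + Z) := by positivity
            have h11 : (3 * Cv * (1 + Cv) + 6 / c) / s * h * (1 + Z)
                = (3 * Cv * (1 + Cv)) / s * h * (1 + Z) + 6 / c / s * h * (1 + Z) := by ring
            rw [h11]
            linarith
    have h6 : 0 ≤ s * t ^ 2 / (3 * h) := by positivity
    linarith

end Pool.UMD
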