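import Pool.Agent.H37.UMD.Stmts

/-!
Ultimate matching, module THP: properties of the function theta.
-/

set_option autoImplicit false

open MeasureTheory ProbabilityTheory

namespace Pool.UMD

theorem THP_nm_nonneg (v : ℝ × ℝ) : 0 ≤ nm v := Real.sqrt_nonneg _

theorem THP_nm_cont : Continuous nm := by
  unfold nm
  fun_prop

theorem THP_NL_nonneg (β₁ β₂ L : ℝ) (v : ℝ × ℝ) : 0 ≤ NL β₁ β₂ L v := Real.sqrt_nonneg _

theorem sThp (hN : SNlp) : SThp := by
  intro β₁ β₂ h1 h2 hs
  obtain ⟨n1, -, -, n4, -, -, -⟩ := hN β₁ β₂ h1 h2 hs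
  refine ⟨?_, ?_, ?_, ?_⟩
  · intro L hL
    unfold th NL
    have hlog : Continuous (fun v : ℝ × ℝ => Real.log (1 + nm v)) :=
      Continuous.log (continuous_const.add THP_nm_cont)
        (fun v => by have := THP_nm_nonneg v; positivity)
    have hM : Continuous (fun v : ℝ × ℝ => max L (4 * Real.log (1 + nm v))) :=
      continuous_const.max (continuous_const.mul hlog)
    have c1 : Continuous (fun v : ℝ × ℝ => (max L (4 * Real.log (1 + nm v))) ^ β₁) :=
      hM.rpow_const (fun v => Or.inr h1.le)
    have c2 : Continuous (fun v : ℝ × ℝ => (max L (4 * Real.log (1 + nm v))) ^ β₂) :=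
      hM.rpow_const (fun v => Or.inr h2.le)
    exact continuous_const.add
      (THP_nm_cont.comp ((c1.mul continuous_fst).prodMk (c2.mul continuous_snd)))
  · intro L v hL
    unfold th
    have := n4 L (max L (4 * Real.log (1 + nm v))) v hL (le_max_left _ _)
    linarith
  · intro L v hL
    have hnn := THP_nm_nonneg v
    rcases le_or_gt (2 * L) (4 * Real.log (1 + nm v)) with h | h
    · have e1 : max (2 * L) (4 * Real.log (1 + nm v)) = 4 * Real.log (1 + nm v) :=
        max_eq_right h
      have e2 : max L (4 * Real.log (1 + nm v)) = 4 * Real.log (1 + nm v) :=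
        max_eq_right (by linarith)
      unfold th
      rw [e1, e2]
      have : 0 ≤ √(2 * L) * Real.exp (L / 2) := by positivity
      linarith
    · have e1 : max (2 * L) (4 * Real.log (1 + nm v)) = 2 * L := max_eq_left h.le
      have hv : nm v ≤ Real.exp (L / 2) := by
        have h3 : Real.log (1 + nm v) < L / 2 := by linarith
        have h4 : 1 + nm v < Real.exp (L / 2) :=
          (Real.log_lt_iff_lt_exp (by positivity)).mp h3
        linarith
      have h5 : th β₁ β₂ (2 * L) v ≤ 1 + √(2 * L) * nm v := by
        unfold th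
        rw [e1]
        have := (n1 (2 * L) v (by linarith)).2
        linarith
      have h6 : √(2 * L) * nm v ≤ √(2 * L) * Real.exp (L / 2) :=
        mul_le_mul_of_nonneg_left hv (Real.sqrt_nonneg _)
      have h7 : 1 ≤ th β₁ β₂ L v := by
        unfold th
        have := THP_NL_nonneg β₁ β₂ (max L (4 * Real.log (1 + nm v))) v
        linarith
      linarith
  · intro L v hL
    unfold th
    have := (n1 (max L (4 * Real.log (1 + nm v))) v (le_trans hL (le_max_left _ _))).2
    linarith

end Pool.UMD
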